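import Mathlib

set_option autoImplicit false

/-! A precompact abelian group with a closed `G_δ` subgroup which is not the intersection of the
kernels of countably many characters. -/

namespace Pool.Agent.Results.MP_f24352_gt.ClosedGdeltaNotNChar

open Topology Set

/-- nodes of the binary tree -/
abbrev Tr : Type := Σ n : ℕ, (Fin n → Bool)

/-- branches of the binary tree -/
abbrev Br : Type := ℕ → Bool

/-- indicator of the branch `z` -/
noncomputable def br (z : Br) (t : Tr) : ZMod 2 :=
  open Classical in if (∀ i : Fin t.1, t.2 i = z i) then 1 else 0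

/-- the underlying group -/
def X : Type := (Tr →₀ ZMod 2) × (Br →₀ ZMod 2)

noncomputable instance : AddCommGroup X :=
  inferInstanceAs (AddCommGroup ((Tr →₀ ZMod 2) × (Br →₀ ZMod 2)))

/-- the embedding of the group in a power of `ZMod 2` -/
noncomputable def J : X →+ ((Tr ⊕ Br) → ZMod 2) where
  toFun x := Sum.elim (fun t => x.1 t + x.2.sum (fun z a => a * br z t)) (fun z => x.2 z)
  map_zero' := by
    funext i
    rcases i with t | z
    · change (0 : Tr →₀ ZMod 2) t + (0 : Br →₀ ZMod 2).sum _ = 0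
      simp
    · rfl
  map_add' x y := by
    funext i
    rcases i with t | z
    · change (x.1 + y.1) t + (x.2 + y.2).sum (fun z a => a * br z t)
        = (x.1 t + x.2.sum (fun z a => a * br z t)) + (y.1 t + y.2.sum (fun z a => a * br z t))
      rw [Finsupp.sum_add_index' (by simp) (by intros; ring)]
      simp only [Finsupp.coe_add, Pi.add_apply]
      ring
    · rfl

noncomputable instance : TopologicalSpace X := TopologicalSpace.induced J inferInstance

lemma isInducing_J : IsInducing (J : X → ((Tr ⊕ Br) → ZMod 2)) := ⟨rfl⟩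

instance : IsTopologicalAddGroup X := topologicalAddGroup_induced J

lemma J_injective : Function.Injective (J : X → ((Tr ⊕ Br) → ZMod 2)) := by
  rw [injective_iff_map_eq_zero]
  intro x hx
  have h2 : x.2 = 0 := by
    ext z
    exact congrFun hx (Sum.inr z)
  have h1 : x.1 = 0 := by
    ext t
    have := congrFun hx (Sum.inl t)
    change x.1 t + x.2.sum (fun z a => a * br z t) = 0 at this
    rw [h2] at this
    simpa using this
  exact Prod.ext h1 h2

instance : T2Space X := (IsEmbedding.mk isInducing_J J_injective).t2Space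

lemma J_continuous (i : Tr ⊕ Br) : Continuous (fun x : X => J x i) :=
  (continuous_apply i).comp isInducing_J.continuous

/-- basic neighbourhoods of zero -/
lemma exists_finset {U : Set X} (hU : U ∈ 𝓝 (0 : X)) :
    ∃ I : Finset (Tr ⊕ Br), ∀ x : X, (∀ i ∈ I, J x i = 0) → x ∈ U := by
  rw [isInducing_J.nhds_eq_comap, Filter.mem_comap] at hU
  obtain ⟨V, hV, hVU⟩ := hU
  rw [map_zero] at hV
  rw [nhds_pi, Filter.mem_pi] at hV
  obtain ⟨I, hI, t, ht, htV⟩ := hV
  refine ⟨hI.toFinset, fun x hx => hVU (htV ?_)⟩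
  intro i hi
  have : J x i = 0 := hx i (by simpa using hi)
  rw [this]
  exact mem_of_mem_nhds (ht i)

lemma totallyBounded {U : Set X} (hU : U ∈ 𝓝 (0 : X)) :
    ∃ E : Set X, E.Finite ∧ ∀ x : X, ∃ u ∈ U, ∃ e ∈ E, u + e = x := by
  obtain ⟨I, hI⟩ := exists_finset hU
  let r : X → (I → ZMod 2) := fun x i => J x i
  have hfin : (Set.range r).Finite := Set.toFinite _
  obtain ⟨E, hE⟩ : ∃ E : Set X, E.Finite ∧ r '' E = Set.range r := by
    obtain ⟨E, _, hE, hE2⟩ := Set.exists_subset_bijOn (Set.univ : Set X) r |>.imp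
      (fun E h => (⟨h.1, (h.2.finite_iff_finite).2 (by rw [Set.image_univ]; exact hfin), h.2.image_eq⟩ : E ⊆ Set.univ ∧ E.Finite ∧ r '' E = r '' Set.univ))
    exact ⟨E, hE, by rw [hE2, Set.image_univ]⟩
  refine ⟨E, hE.1, fun x => ?_⟩
  have : r x ∈ r '' E := by rw [hE.2]; exact ⟨x, rfl⟩
  obtain ⟨e, he, hex⟩ := this
  refine ⟨x - e, hI _ ?_, e, he, by abel⟩
  intro i hi
  rw [map_sub, Pi.sub_apply]
  have := congrFun hex ⟨i, hi⟩
  change J e i = J x i at this
  rw [this, sub_self]

/-- the closed `G_δ` subgroup of finite sets -/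
noncomputable def F : AddSubgroup X where
  carrier := {x | x.2 = 0}
  zero_mem' := rfl
  add_mem' := by
    intro x y hx hy
    change x.2 + y.2 = 0
    rw [show x.2 = 0 from hx, show y.2 = 0 from hy, add_zero]
  neg_mem' := by
    intro x hx
    change -x.2 = 0
    rw [show x.2 = 0 from hx, neg_zero]

lemma mem_F {x : X} : x ∈ F ↔ x.2 = 0 := Iff.rfl

lemma isClosed_F : IsClosed (F : Set X) := by
  have : (F : Set X) = ⋂ z : Br, (fun x : X => J x (Sum.inr z)) ⁻¹' {0} := by
    ext x
    simp only [SetLike.mem_coe, mem_F, mem_iInter, mem_preimage, mem_singleton_iff]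
    constructor
    · intro h z
      change x.2 z = 0
      rw [h]; rfl
    · intro h
      ext z
      exact h z
  rw [this]
  exact isClosed_iInter fun z => (isClosed_singleton).preimage (J_continuous _)

/-- level `n` vanishes -/
def lev (n : ℕ) : Set X := {x | ∀ s : Fin n → Bool, J x (Sum.inl ⟨n, s⟩) = 0}

lemma isOpen_lev (n : ℕ) : IsOpen (lev n) := by
  have : lev n = ⋂ s : Fin n → Bool, (fun x : X => J x (Sum.inl ⟨n, s⟩)) ⁻¹' {0} := by
    ext x; simp [lev]
  rw [this]
  exact isOpen_iInter_of_finite fun s => (isOpen_discrete _).preimage (J_continuous _)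

lemma F_levels {x : X} : x ∈ F ↔ ∀ N, ∃ n, N ≤ n ∧ x ∈ lev n := by
  -- bound for the first coordinate
  have hbound : ∀ f : Tr →₀ ZMod 2, ∃ M, ∀ n, M ≤ n → ∀ s : Fin n → Bool, f ⟨n, s⟩ = 0 := by
    intro f
    refine ⟨f.support.sup (fun t => t.1) + 1, fun n hn s => ?_⟩
    by_contra h
    have hm : (⟨n, s⟩ : Tr) ∈ f.support := Finsupp.mem_support_iff.2 h
    have := Finset.le_sup (f := fun t : Tr => t.1) hm
    simp only at this
    omega
  constructor
  · intro h N
    obtain ⟨M, hM⟩ := hbound x.1
    refine ⟨max N M, le_max_left _ _, fun s => ?_⟩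
    change x.1 _ + x.2.sum _ = 0
    rw [mem_F.1 h, Finsupp.sum_zero_index, add_zero]
    exact hM _ (le_max_right _ _) s
  · intro h
    by_contra hx
    obtain ⟨M, hM⟩ := hbound x.1
    have hne : x.2 ≠ 0 := hx
    obtain ⟨z0, hz0⟩ := Finsupp.support_nonempty_iff.2 hne
    -- separate z0 from the other branches
    have hsep : ∃ K : ℕ, ∀ z ∈ x.2.support, z ≠ z0 → ∃ i < K, z i ≠ z0 i := by
      have hz : ∀ z : Br, z ≠ z0 → ∃ i, z i ≠ z0 i := fun z hz => by
        by_contra hcon
        push Not at hcon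
        exact hz (funext hcon)
      choose! g hg using hz
      refine ⟨x.2.support.sup g + 1, fun z hzs hzne => ⟨g z, ?_, hg z hzne⟩⟩
      have := Finset.le_sup (f := g) hzs
      omega
    obtain ⟨K, hK⟩ := hsep
    obtain ⟨n, hn, hxn⟩ := h (max K M)
    have h1 := hxn (fun i => z0 i)
    change x.1 _ + x.2.sum (fun z a => a * br z _) = 0 at h1
    rw [hM n (le_trans (le_max_right _ _) hn), zero_add, Finsupp.sum] at h1
    rw [Finset.sum_eq_single z0] at h1
    · have : br z0 ⟨n, fun i => z0 i⟩ = 1 := by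
        unfold br; simp
      rw [this, mul_one] at h1
      exact (Finsupp.mem_support_iff.1 hz0) h1
    · intro z hz hzne
      obtain ⟨i, hi, hine⟩ := hK z hz hzne
      have : br z ⟨n, fun i => z0 i⟩ = 0 := by
        unfold br
        rw [if_neg]
        intro hcon
        exact hine (hcon ⟨i, lt_of_lt_of_le hi (le_trans (le_max_left _ _) hn)⟩).symm
      rw [this, mul_zero]
    · intro h'; exact absurd hz0 h'

lemma isGδ_F : IsGδ (F : Set X) := by
  have : (F : Set X) = ⋂ N : ℕ, ⋃ n : ℕ, ⋃ _ : N ≤ n, lev n := by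
    ext x
    simp only [SetLike.mem_coe, F_levels, mem_iInter, mem_iUnion, exists_prop]
  rw [this]
  exact IsGδ.iInter_of_isOpen fun N => isOpen_iUnion fun n => isOpen_iUnion fun _ => isOpen_lev n

/-- the branch `z` as an element of the group -/
noncomputable def P (z : Br) : X := ((0 : Tr →₀ ZMod 2), Finsupp.single z 1)

lemma two_nsmul_X (x : X) : (2 : ℕ) • x = 0 := by
  apply J_injective
  rw [map_nsmul, map_zero]
  funext i
  change (2 : ℕ) • (J x i) = 0
  rw [two_nsmul]
  exact CharTwo.add_self_eq_zero _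

/-- a character which vanishes on `F` kills all but finitely many branches -/
lemma finite_exceptions (χ : X →+ AddCircle (1 : ℝ)) (hχ : Continuous χ)
    (hF : ∀ x ∈ F, χ x = 0) : ∃ Z : Finset Br, ∀ z ∉ Z, χ (P z) = 0 := by
  classical
  have hfin : ({u : AddCircle (1 : ℝ) | (2 : ℕ) • u = 0} \ {0}).Finite :=
    (AddCircle.finite_torsion (1 : ℝ) two_pos).subset sdiff_subset
  have hU : χ ⁻¹' ({u : AddCircle (1 : ℝ) | (2 : ℕ) • u = 0} \ {0})ᶜ ∈ 𝓝 (0 : X) := by
    refine (hfin.isClosed.isOpen_compl.preimage hχ).mem_nhds ?_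
    simp
  obtain ⟨I, hI⟩ := exists_finset hU
  have hker : ∀ x : X, (∀ i ∈ I, J x i = 0) → χ x = 0 := by
    intro x hx
    have h1 := hI x hx
    by_contra hne
    apply h1
    refine ⟨?_, by simpa using hne⟩
    change (2 : ℕ) • χ x = 0
    rw [← map_nsmul, two_nsmul_X, map_zero]
  refine ⟨I.preimage Sum.inr (Sum.inr_injective.injOn), fun z hz => ?_⟩
  -- the finite correction
  let f : Tr →₀ ZMod 2 := Finsupp.onFinset (I.preimage Sum.inl (Sum.inl_injective.injOn))
    (fun t => if Sum.inl t ∈ I then br z t else 0) (by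
      intro t ht
      simp only [Finset.mem_preimage]
      by_contra hcon
      exact ht (if_neg hcon))
  let y : X := (f, (0 : Br →₀ ZMod 2))
  have hy : y ∈ F := rfl
  have hsum : χ (P z + y) = 0 := by
    apply hker
    intro i hi
    rw [map_add, Pi.add_apply]
    rcases i with t | w
    · change ((0 : Tr →₀ ZMod 2) t + (Finsupp.single z (1 : ZMod 2)).sum (fun z a => a * br z t))
        + (f t + (0 : Br →₀ ZMod 2).sum (fun z a => a * br z t)) = 0
      rw [Finsupp.sum_single_index (by simp), Finsupp.sum_zero_index]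
      have : f t = br z t := by
        change (if Sum.inl t ∈ I then br z t else 0) = br z t
        rw [if_pos hi]
      rw [this]
      simp only [Finsupp.coe_zero, Pi.zero_apply, one_mul, zero_add, add_zero]
      exact CharTwo.add_self_eq_zero _
    · change (Finsupp.single z (1 : ZMod 2)) w + (0 : Br →₀ ZMod 2) w = 0
      have hzw : z ≠ w := by
        rintro rfl
        exact hz (by simpa using hi)
      rw [Finsupp.single_eq_of_ne (Ne.symm hzw)]
      simp
  rw [map_add, hF y hy, add_zero] at hsum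
  exact hsum

/-- **MP_f24352_gt, Q1 (disproved).** There is a precompact (Hausdorff, totally bounded) abelian
topological group `X` with a closed `G_δ`-subgroup `F` which is not of the form
`⋂ n, ker (v n)` for a sequence `v` of continuous characters `X → ℝ/ℤ`. -/
theorem result :
    ∃ (X : Type) (_ : AddCommGroup X) (_ : TopologicalSpace X),
      IsTopologicalAddGroup X ∧ T2Space X ∧
      (∀ U ∈ 𝓝 (0 : X), ∃ E : Set X, E.Finite ∧ ∀ x : X, ∃ u ∈ U, ∃ e ∈ E, u + e = x) ∧
      ∃ F : AddSubgroup X, IsClosed (F : Set X) ∧ IsGδ (F : Set X) ∧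
        ¬ ∃ v : ℕ → (X →+ AddCircle (1 : ℝ)), (∀ n, Continuous (v n)) ∧
          (F : Set X) = ⋂ n, {x | v n x = 0} := by
  refine ⟨X, inferInstance, inferInstance, inferInstance, inferInstance,
    fun U hU => totallyBounded hU, F, isClosed_F, isGδ_F, ?_⟩
  rintro ⟨v, hv, hF⟩
  have hvan : ∀ n, ∀ x ∈ F, v n x = 0 := by
    intro n x hx
    have : x ∈ (F : Set X) := hx
    rw [hF] at this
    exact (mem_iInter.1 this) n
  choose Z hZ using fun n => finite_exceptions (v n) (hv n) (hvan n)
  have hcount : (⋃ n, (Z n : Set Br)).Countable :=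
    countable_iUnion fun n => (Z n).countable_toSet
  have hunc : ¬ (Set.univ : Set Br).Countable := by
    intro h
    have h4 : Cardinal.mk Br = Cardinal.continuum := by
      rw [← Cardinal.two_power_aleph0]; simp only [Cardinal.mk_pi, Cardinal.mk_bool,
        Cardinal.prod_const, Cardinal.mk_nat, Cardinal.lift_aleph0, Cardinal.lift_ofNat]
    have h3 : Cardinal.mk Br ≤ Cardinal.aleph0 :=
      Cardinal.mk_le_aleph0_iff.2 (Set.countable_univ_iff.1 h)
    rw [h4] at h3
    exact absurd h3 (not_le.2 Cardinal.aleph0_lt_continuum)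
  obtain ⟨z, hz⟩ : ∃ z : Br, z ∉ ⋃ n, (Z n : Set Br) := by
    by_contra hcon
    push Not at hcon
    exact hunc (hcount.mono (fun z _ => hcon z))
  have : P z ∈ (F : Set X) := by
    rw [hF]
    refine mem_iInter.2 fun n => hZ n z (fun h => hz (mem_iUnion.2 ⟨n, h⟩))
  have h0 : (Finsupp.single z (1 : ZMod 2)) = 0 := this
  have := DFunLike.congr_fun h0 z
  simp at this

end Pool.Agent.Results.MP_f24352_gt.ClosedGdeltaNotNChar
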